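import Mathlib

namespace Pool.Agent.Results.MP_130e73_co.Disproof

open Classical Finset

/-- `S` is dominating: every vertex outside `S` has a neighbour in `S`. -/
def Dominating {V : Type} (G : SimpleGraph V) (S : Finset V) : Prop :=
  ∀ v, v ∉ S → ∃ u ∈ S, G.Adj v u

/-- The value at `x` of the domination polynomial `D(G, x) = ∑_i d(G, i) x ^ i`. -/
noncomputable def domPoly {V : Type} [Fintype V] (G : SimpleGraph V) (x : ℝ) : ℝ :=
  ∑ i ∈ Icc 1 (Fintype.card V),
    ((univ.filter fun S : Finset V => Dominating G S ∧ S.card = i).card : ℝ) * x ^ i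

def RP : Set ℝ := {r | ∃ n, 4 ≤ n ∧ domPoly (SimpleGraph.pathGraph n) r = 0}

def RC : Set ℝ := {r | ∃ n, 4 ≤ n ∧ domPoly (SimpleGraph.cycleGraph n) r = 0}

def good : List Bool → Bool
  | a :: b :: c :: l => (a || b || c) && good (b :: c :: l)
  | _ => true

lemma good_iff (l : List Bool) : good l = true ↔
    ∀ i, i + 2 < l.length → l.getD i false ∨ l.getD (i + 1) false ∨ l.getD (i + 2) false := by
  induction l with
  | nil => simp [good]
  | cons a l ih =>
    match l, ih with
    | [], _ => simp [good]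
    | [b], _ => simp [good]
    | b :: c :: l, ih =>
      simp only [good, Bool.and_eq_true, ih, Bool.or_eq_true]
      constructor
      · rintro ⟨h1, h2⟩ i hi
        rcases i with _ | i
        · simpa [or_assoc] using h1
        · simpa using h2 i (by simpa using hi)
      · intro h
        exact ⟨by simpa [or_assoc] using h 0 (by simp),
          fun i hi => by simpa using h (i + 1) (by simpa using hi)⟩

noncomputable def SW (n : ℕ) (F : List Bool → ℝ) : ℝ := ∑ f : Fin n → Bool, F (List.ofFn f)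

lemma SW_succ (n : ℕ) (F : List Bool → ℝ) :
    SW (n + 1) F = SW n (fun l => F (true :: l)) + SW n (fun l => F (false :: l)) := by
  unfold SW
  rw [← (Fin.consEquiv fun _ => Bool).sum_comp, Fintype.sum_prod_type, Fintype.sum_bool]
  simp [Fin.consEquiv, List.ofFn_succ]

noncomputable def T (x : ℝ) (c d : Bool) (m : ℕ) (a b : Bool) : ℝ :=
  SW m fun l => if good (a :: b :: (l ++ [c, d])) then x ^ l.count true else 0

lemma T_succ (x : ℝ) (c d : Bool) (m : ℕ) (a b : Bool) : T x c d (m + 1) a b =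
    x * T x c d m b true + if a || b then T x c d m b false else 0 := by
  unfold T
  rw [SW_succ]
  congr 1
  · simp only [SW, mul_sum]
    refine sum_congr rfl fun f _ => ?_
    simp [good, pow_succ, mul_comm]
  · split_ifs with h
    · simp [good, h]
    · simp [good, h, SW]

lemma T_rec (x : ℝ) (c d : Bool) (m : ℕ) (a b : Bool) : T x c d (m + 4) a b =
    x * (T x c d (m + 3) a b + T x c d (m + 2) a b + T x c d (m + 1) a b) := by
  cases a <;> cases b <;> simp only [T_succ] <;> simp <;> ring_nf <;> simp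

noncomputable def P (x : ℝ) (m : ℕ) : ℝ :=
  x ^ 2 * T x true true m true true + x * T x true false m true false +
    x * T x false true m false true + T x false false m false false

lemma dom_eq (x : ℝ) (m : ℕ) : domPoly (SimpleGraph.cycleGraph (m + 3)) x = P x (m + 1) := by
  have h1 : domPoly (SimpleGraph.cycleGraph (m + 3)) x = ∑ S : Finset (Fin (m + 3)),
      if Dominating (SimpleGraph.cycleGraph (m + 3)) S then x ^ S.card else 0 := by
    unfold domPoly
    simp only [card_filter]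
    push_cast
    simp only [sum_mul]
    rw [sum_comm]
    refine sum_congr rfl fun S _ => ?_
    split_ifs with h
    · rw [sum_eq_single S.card]
      · simp [h]
      · intro b _ hb; simp [hb.symm]
      · intro hS
        refine absurd (mem_Icc.2 ⟨?_, card_le_univ S⟩) hS
        by_contra h0
        have : S = ∅ := card_eq_zero.1 (by omega)
        obtain ⟨u, hu, -⟩ := h 0 (by simp [this])
        simp [this] at hu
    · simp [h]
  have h2 : P x (m + 1) = SW (m + 3) fun l =>
      if good (l ++ l.take 2) then x ^ l.count true else 0 := by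
    rw [SW_succ, SW_succ, SW_succ (m + 1) fun l => if good (false :: l ++ _) then _ else _]
    simp only [P, T, SW, mul_sum, add_assoc]
    congr 1
    · exact sum_congr rfl fun f _ => by simp [pow_succ]; split_ifs <;> ring
    · congr 1
      · exact sum_congr rfl fun f _ => by simp [pow_succ]; split_ifs <;> ring
      · congr 1
        exact sum_congr rfl fun f _ => by simp [pow_succ]; split_ifs <;> ring
  rw [h1, h2, SW]
  refine Fintype.sum_equiv ⟨fun S i => decide (i ∈ S), fun f => univ.filter fun i => f i = true,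
    fun S => by ext; simp, fun f => by ext; simp⟩ _ _ fun S => ?_
  simp only [Equiv.coe_fn_mk]
  have hc : (List.ofFn fun i => decide (i ∈ S)).count true = S.card := by
    rw [List.ofFn_eq_map, List.count_eq_countP, List.countP_map, List.countP_eq_length_filter,
      ← List.toFinset_card_of_nodup ((List.nodup_finRange _).filter _)]
    congr 1; ext; simp
  have hg : ∀ i : ℕ, i < m + 5 → (((List.ofFn fun i => decide (i ∈ S)) ++
      (List.ofFn fun i => decide (i ∈ S)).take 2).getD i false = true ↔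
      (⟨i % (m + 3), Nat.mod_lt _ (by omega)⟩ : Fin (m + 3)) ∈ S) := fun i hi => by
    by_cases h : i < m + 3
    · rw [List.getD_append _ _ _ _ (by simp; omega), List.getD_eq_getElem _ _ (by simp; omega)]
      simp only [List.getElem_ofFn, decide_eq_true_eq, Nat.mod_eq_of_lt h]
    · rw [List.getD_append_right _ _ _ _ (by simp; omega),
        List.getD_eq_getElem _ _ (by simp; omega)]
      have : i % (m + 3) = i - (m + 3) := by
        rw [Nat.mod_eq_sub_mod (by omega), Nat.mod_eq_of_lt (by omega)]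
      simp only [List.getElem_take, List.getElem_ofFn, decide_eq_true_eq, this, List.length_ofFn]
  rw [hc]
  congr 1
  apply propext
  rw [good_iff]
  have e : ∀ v : Fin (m + 3), ∀ k : ℕ, ∀ hk : k < m + 3,
      (⟨(v.val + k) % (m + 3), Nat.mod_lt _ (by omega)⟩ : Fin (m + 3)) = v + ⟨k, hk⟩ :=
    fun v k hk => Fin.ext (by simp [Fin.val_add])
  have e' : (∀ i, i + 2 < m + 5 → (⟨i % (m + 3), Nat.mod_lt _ (by omega)⟩ : Fin (m + 3)) ∈ S ∨
      (⟨(i + 1) % (m + 3), Nat.mod_lt _ (by omega)⟩ : Fin (m + 3)) ∈ S ∨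
      (⟨(i + 2) % (m + 3), Nat.mod_lt _ (by omega)⟩ : Fin (m + 3)) ∈ S) ↔
      ∀ v : Fin (m + 3), v ∈ S ∨ v + 1 ∈ S ∨ v + 1 + 1 ∈ S := by
    have two : ∀ v : Fin (m + 3), v + ⟨2, by omega⟩ = v + 1 + 1 := fun v => by
      rw [add_assoc]; rfl
    constructor
    · intro h v
      have := h v (by omega)
      rw [e v 1 (by omega), e v 2 (by omega), two] at this
      simpa [Nat.mod_eq_of_lt v.2] using this
    · intro h i hi
      have := h ⟨i, by omega⟩
      rw [e ⟨i, by omega⟩ 1 (by omega), e ⟨i, by omega⟩ 2 (by omega), two]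
      simpa [Nat.mod_eq_of_lt (show i < m + 3 by omega)] using this
  have len : ((List.ofFn fun i => decide (i ∈ S)) ++
      (List.ofFn fun i => decide (i ∈ S)).take 2).length = m + 5 := by simp
  rw [len]
  refine Iff.trans ?_ (e'.symm.trans (forall₂_congr fun i hi => by
    rw [hg i (by omega), hg (i + 1) (by omega), hg (i + 2) (by omega)]))
  simp only [Dominating, SimpleGraph.cycleGraph_adj]
  constructor
  · intro h v
    by_cases hv : v + 1 ∈ S
    · exact Or.inr (Or.inl hv)
    · obtain ⟨u, hu, h1 | h1⟩ := h _ hv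
      · left; rwa [show v = u by rw [sub_eq_iff_eq_add'.1 h1 |> add_right_cancel]]
      · right; right; rwa [show v + 1 + 1 = u from (sub_eq_iff_eq_add'.1 h1).symm]
  · intro h v hv
    rcases h (v - 1) with h1 | h1 | h1
    · exact ⟨_, h1, Or.inl (by simp)⟩
    · exact absurd (by simpa using h1) hv
    · exact ⟨_, h1, Or.inr (by simp)⟩

lemma P_rec (x : ℝ) (m : ℕ) : P x (m + 4) = x * (P x (m + 3) + P x (m + 2) + P x (m + 1)) := by
  simp only [P, T_rec]; ring

noncomputable def u (a b : ℝ) : ℕ → ℝ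
  | 0 => 2
  | 1 => a
  | n + 2 => a * u a b (n + 1) - b * u a b n

lemma u_inv (a b : ℝ) (n : ℕ) : u a b (n + 1) ^ 2 - a * u a b (n + 1) * u a b n + b * u a b n ^ 2 =
    b ^ n * (4 * b - a ^ 2) := by
  induction n with
  | zero => simp [u]; ring
  | succ n ih => rw [u, pow_succ b n]; linear_combination b * ih

lemma P_ne (x : ℝ) (h1 : -19 / 10 ≤ x) (h2 : x ≤ -9 / 5) (m : ℕ) : P x (m + 2) ≠ 0 := by
  obtain ⟨t, ⟨t1, t2⟩, ht⟩ : ∃ t ∈ Set.Icc (7 / 5 : ℝ) (3 / 2), t ^ 3 + x * (t ^ 2 - t + 1) = 0 :=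
    intermediate_value_Icc (by norm_num) (f := fun t : ℝ => t ^ 3 + x * (t ^ 2 - t + 1))
      (by fun_prop) ⟨by nlinarith, by nlinarith⟩
  have ht0 : t ≠ 0 := by positivity
  obtain ⟨b, rfl⟩ : ∃ b, x = -b * t := ⟨-x / t, by field_simp⟩
  have hb : t ^ 2 = b * (t ^ 2 - t + 1) := by
    have : t * (t ^ 2 - b * (t ^ 2 - t + 1)) = 0 := by linear_combination ht
    linarith [(mul_eq_zero.1 this).resolve_left ht0]
  have b1 : 1 < b := by nlinarith
  have b2 : b < 2 := by nlinarith
  set x := -b * t with hx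
  set a := t - b * t with ha
  have T0 : ∀ c d a b, T x c d 0 a b = if good [a, b, c, d] then 1 else 0 := fun c d a b => by
    simp [T, SW]
  have p1 : P x 1 = x ^ 3 + 3 * x ^ 2 + 3 * x := by simp [P, T_succ, T0, good]; ring
  have p2 : P x 2 = x ^ 4 + 4 * x ^ 3 + 6 * x ^ 2 := by simp [P, T_succ, T0, good]; ring
  have p3 : P x 3 = x ^ 5 + 5 * x ^ 4 + 10 * x ^ 3 + 5 * x ^ 2 := by
    simp [P, T_succ, T0, good]; ring
  have hr : ∀ n, (-t) ^ (n + 3) + u a b (n + 3) = x * (((-t) ^ (n + 2) + u a b (n + 2)) +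
      ((-t) ^ (n + 1) + u a b (n + 1)) + ((-t) ^ n + u a b n)) := fun n => by
    simp only [u, pow_succ, hx, ha]
    linear_combination (u (t - b * t) b (n + 1) - t * (-t) ^ n) * hb
  have s0 : (-t) ^ 0 + u a b 0 = 3 := by simp [u]; norm_num
  have s1 : (-t) ^ 1 + u a b 1 = x := by simp [u, ha, hx]; ring
  have s2 : (-t) ^ 2 + u a b 2 = x ^ 2 + 2 * x := by
    simp only [u, ha, hx]; linear_combination 2 * hb
  have s3 := hr 0
  have s4 := hr 1
  have s5 := hr 2
  simp only [zero_add, Nat.reduceAdd] at s3 s4 s5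
  rw [s0, s1, s2] at s3
  rw [s1, s2, s3] at s4
  rw [s2, s3, s4] at s5
  have key : ∀ n, P x (n + 1) = (-t) ^ (n + 3) + u a b (n + 3) ∧
      P x (n + 2) = (-t) ^ (n + 4) + u a b (n + 4) ∧
      P x (n + 3) = (-t) ^ (n + 5) + u a b (n + 5) := by
    intro n
    induction n with
    | zero => exact ⟨by rw [p1, s3]; ring, by rw [p2, s4]; ring, by rw [p3, s5]; ring⟩
    | succ n ih => exact ⟨ih.2.1, ih.2.2, by rw [P_rec, ih.1, ih.2.1, ih.2.2, hr (n + 3)]⟩
  intro h0
  rw [(key m).2.1] at h0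
  have hD : 0 < 4 * b - a ^ 2 := by
    have : a ^ 2 = t ^ 2 * (b - 1) ^ 2 := by rw [ha]; ring
    have c1 : (b - 1) ^ 2 < 1 := by nlinarith
    have c2 : t ^ 2 ≤ 9 / 4 := by nlinarith
    nlinarith [sq_nonneg (b - 1)]
  have i1 := u_inv a b (m + 4)
  have i2 : u a b (m + 4) ^ 2 ≤ 4 * b ^ (m + 4) := by
    refine le_of_mul_le_mul_right ?_ hD
    nlinarith [sq_nonneg (2 * u a b (m + 4 + 1) - a * u a b (m + 4))]
  have i3 : u a b (m + 4) ^ 2 = b ^ (m + 4) * (t ^ 2 - t + 1) ^ (m + 4) := by
    rw [← mul_pow, ← hb, show u a b (m + 4) = -(-t) ^ (m + 4) by linarith, neg_sq, ← pow_mul,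
      mul_comm, pow_mul, neg_sq]
  have i4 : (3 / 2 : ℝ) ^ 4 ≤ (t ^ 2 - t + 1) ^ (m + 4) :=
    (pow_le_pow_right₀ (by norm_num) (by omega)).trans
      (pow_le_pow_left₀ (by norm_num) (by nlinarith) _)
  have i5 : 0 < b ^ (m + 4) := by positivity
  nlinarith

/-- No cycle `C_n`, `n ≥ 4`, has a domination root in `[-19/10, -9/5]`; so the real domination
roots of cycles are not dense in `[-2, 0]`. -/
theorem result : (∀ x ∈ Set.Icc (-19 / 10 : ℝ) (-9 / 5), x ∉ RC) ∧
    ¬ (Set.Icc (-2 : ℝ) 0 ⊆ closure RP ∧ Set.Icc (-2 : ℝ) 0 ⊆ closure RC) := by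
  have h : ∀ x ∈ Set.Icc (-19 / 10 : ℝ) (-9 / 5), x ∉ RC := by
    rintro x ⟨h1, h2⟩ ⟨n, hn, h0⟩
    obtain ⟨m, rfl⟩ : ∃ m, n = m + 1 + 3 := ⟨n - 4, by omega⟩
    rw [dom_eq] at h0
    exact P_ne x h1 h2 m h0
  refine ⟨h, fun ⟨_, h2⟩ => ?_⟩
  have := h2 (show (-37 / 20 : ℝ) ∈ _ by constructor <;> norm_num)
  obtain ⟨y, hy, hd⟩ := Metric.mem_closure_iff.1 this (1 / 20) (by norm_num)
  rw [Real.dist_eq, abs_lt] at hd
  exact h y ⟨by linarith [hd.2], by linarith [hd.1]⟩ hy

end Pool.Agent.Results.MP_130e73_co.Disproof
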